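import Mathlib

/-! A primitive recursive test for the absence of splittings. -/

set_option autoImplicit false

namespace Pool.Agent.V11291.AL

open Primrec

section

variable {β : Type} [Primcodable β]

theorem all_lt {R : ℕ → β → Prop} (hR : PrimrecRel R) {f : β → ℕ} (hf : Primrec f) :
    PrimrecPred fun y => ∀ x < f y, R x y :=
  (hR.forall_mem_list.comp (Primrec.list_range.comp hf) Primrec.id).of_eq (by simp)

theorem ex_lt {R : ℕ → β → Prop} (hR : PrimrecRel R) {f : β → ℕ} (hf : Primrec f) :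
    PrimrecPred fun y => ∃ x < f y, R x y :=
  (hR.exists_mem_list.comp (Primrec.list_range.comp hf) Primrec.id).of_eq (by simp)

theorem dvd' {f g : β → ℕ} (hf : Primrec f) (hg : Primrec g) :
    PrimrecPred fun y => f y % g y = 0 :=
  Primrec.eq.comp (Primrec.nat_mod.comp hf hg) (Primrec.const 0)

end

/-- `p` is a prime number -/
def pr (p : ℕ) : Prop := 2 ≤ p ∧ ∀ d < p, ¬ (2 ≤ d ∧ p % d = 0)

theorem pr_iff (p : ℕ) : pr p ↔ p.Prime := by
  unfold pr
  rw [Nat.prime_def_lt']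
  refine and_congr_right fun _ => ⟨fun h m h1 h2 h3 => h m h2 ⟨h1, Nat.mod_eq_zero_of_dvd h3⟩,
    fun h d h1 h2 => h d h2.1 h1 (Nat.dvd_of_mod_eq_zero h2.2)⟩

theorem prim_pr : PrimrecPred pr := by
  unfold pr
  refine (Primrec.nat_le.comp (Primrec.const 2) Primrec.id).and ?_
  refine all_lt (R := fun d p => ¬ (2 ≤ d ∧ p % d = 0)) ?_ Primrec.id
  refine PrimrecPred.not ?_
  exact (Primrec.nat_le.comp (Primrec.const 2) Primrec.fst).and (dvd' Primrec.snd Primrec.fst)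

/-- `m` is a cube modulo all the prime factors of `a` -/
def cube (y : ℕ × ℕ) : Prop :=
  ∀ p < y.1 + 1, ¬ (pr p ∧ y.1 % p = 0) ∨ ∃ x < p, y.2 % p = (x * (x * x)) % p

theorem prim_cube : PrimrecPred cube := by
  unfold cube
  refine all_lt (R := fun p (y : ℕ × ℕ) => ¬ (pr p ∧ y.1 % p = 0) ∨
    ∃ x < p, y.2 % p = (x * (x * x)) % p) ?_ (Primrec.nat_add.comp Primrec.fst (Primrec.const 1))
  refine PrimrecPred.or (PrimrecPred.not (PrimrecPred.and (prim_pr.comp Primrec.fst)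
    (dvd' (Primrec.fst.comp Primrec.snd) Primrec.fst))) ?_
  refine ex_lt (β := ℕ × (ℕ × ℕ)) (R := fun x y => y.2.2 % y.1 = (x * (x * x)) % y.1) ?_ Primrec.fst
  refine Primrec.eq.comp (Primrec.nat_mod.comp ?_ ?_) (Primrec.nat_mod.comp ?_ ?_)
  · exact Primrec.snd.comp (Primrec.snd.comp Primrec.snd)
  · exact Primrec.fst.comp Primrec.snd
  · exact Primrec.nat_mul.comp Primrec.fst (Primrec.nat_mul.comp Primrec.fst Primrec.fst)
  · exact Primrec.fst.comp Primrec.snd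

/-- the test for one triple -/
def tr (a b c N : ℕ) : Prop :=
  a * (b * c) ≠ N ∨ ¬ cube (a, b * (c * c)) ∨ ¬ cube (b, c * (a * a)) ∨ ¬ cube (c, a * (b * b)) ∨
    (a = 1 ∧ b = 1) ∨ (b = 1 ∧ c = 1) ∨ (c = 1 ∧ a = 1)

/-- there is no splitting -/
def ns (N : ℕ) : Prop := ∀ a < N + 1, ∀ b < N + 1, ∀ c < N + 1, tr a b c N

theorem prim_ns : PrimrecPred ns := by
  unfold ns
  refine all_lt (R := fun a N => ∀ b < N + 1, ∀ c < N + 1, tr a b c N) ?_
    (Primrec.nat_add.comp Primrec.id (Primrec.const 1))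
  refine all_lt (β := ℕ × ℕ) (R := fun b y => ∀ c < y.2 + 1, tr y.1 b c y.2) ?_
    (Primrec.nat_add.comp Primrec.snd (Primrec.const 1))
  refine all_lt (β := ℕ × (ℕ × ℕ)) (R := fun c y => tr y.2.1 y.1 c y.2.2) ?_
    (Primrec.nat_add.comp (Primrec.snd.comp Primrec.snd) (Primrec.const 1))
  have hc : Primrec fun z : ℕ × (ℕ × (ℕ × ℕ)) => z.1 := Primrec.fst
  have hb : Primrec fun z : ℕ × (ℕ × (ℕ × ℕ)) => z.2.1 := Primrec.fst.comp Primrec.snd
  have ha : Primrec fun z : ℕ × (ℕ × (ℕ × ℕ)) => z.2.2.1 :=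
    Primrec.fst.comp (Primrec.snd.comp Primrec.snd)
  have hN : Primrec fun z : ℕ × (ℕ × (ℕ × ℕ)) => z.2.2.2 :=
    Primrec.snd.comp (Primrec.snd.comp Primrec.snd)
  have hcube : ∀ {f g h : ℕ × (ℕ × (ℕ × ℕ)) → ℕ}, Primrec f → Primrec g → Primrec h →
      PrimrecPred fun z => ¬ cube (f z, g z * (h z * h z)) := fun hf hg hh =>
    (prim_cube.comp (Primrec.pair hf (Primrec.nat_mul.comp hg (Primrec.nat_mul.comp hh hh)))).not
  have hone : ∀ {f g : ℕ × (ℕ × (ℕ × ℕ)) → ℕ}, Primrec f → Primrec g →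
      PrimrecPred fun z => f z = 1 ∧ g z = 1 := fun hf hg =>
    (Primrec.eq.comp hf (Primrec.const 1)).and (Primrec.eq.comp hg (Primrec.const 1))
  show PrimrecPred fun z : ℕ × (ℕ × (ℕ × ℕ)) => tr z.2.2.1 z.2.1 z.1 z.2.2.2
  unfold tr
  exact (Primrec.eq.comp (Primrec.nat_mul.comp ha (Primrec.nat_mul.comp hb hc)) hN).not.or
    ((hcube ha hb hc).or ((hcube hb hc ha).or ((hcube hc ha hb).or
      ((hone ha hb).or ((hone hb hc).or (hone hc ha))))))

/-- the test for the class -/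
def cl (N : ℕ) : Prop :=
  1 ≤ N ∧ (∀ x < N + 1, ¬ (2 ≤ x ∧ N % (x * x) = 0)) ∧ N % 3 ≠ 0 ∧ N % 9 ≠ 1 ∧ N % 9 ≠ 8 ∧
    ∃ q < N + 1, pr q ∧ q % 3 = 2 ∧ N % q = 0 ∧
      ∀ p < N + 1, ¬ (pr p ∧ N % p = 0) ∨ p = q ∨ p % 3 = 1

theorem prim_cl : PrimrecPred cl := by
  unfold cl
  have hid : Primrec fun N : ℕ => N := Primrec.id
  have hmod : ∀ k r : ℕ, PrimrecPred fun N : ℕ => N % k ≠ r := fun k r =>
    (Primrec.eq.comp (Primrec.nat_mod.comp hid (Primrec.const k)) (Primrec.const r)).not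
  have h1 : Primrec fun N : ℕ => N + 1 := Primrec.nat_add.comp hid (Primrec.const 1)
  refine (Primrec.nat_le.comp (Primrec.const 1) hid).and (PrimrecPred.and ?_ ((hmod 3 0).and
    ((hmod 9 1).and ((hmod 9 8).and ?_))))
  · refine all_lt (R := fun x N => ¬ (2 ≤ x ∧ N % (x * x) = 0)) ?_ h1
    exact PrimrecPred.not ((Primrec.nat_le.comp (Primrec.const 2) Primrec.fst).and
      (dvd' Primrec.snd (Primrec.nat_mul.comp Primrec.fst Primrec.fst)))
  · refine ex_lt (R := fun q N => pr q ∧ q % 3 = 2 ∧ N % q = 0 ∧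
      ∀ p < N + 1, ¬ (pr p ∧ N % p = 0) ∨ p = q ∨ p % 3 = 1) ?_ h1
    refine PrimrecPred.and (prim_pr.comp Primrec.fst) (PrimrecPred.and
      (Primrec.eq.comp (Primrec.nat_mod.comp Primrec.fst (Primrec.const 3)) (Primrec.const 2))
      (PrimrecPred.and (dvd' Primrec.snd Primrec.fst) ?_))
    refine all_lt (β := ℕ × ℕ) (R := fun p y => ¬ (pr p ∧ y.2 % p = 0) ∨ p = y.1 ∨ p % 3 = 1) ?_
      (Primrec.nat_add.comp Primrec.snd (Primrec.const 1))
    refine PrimrecPred.or (PrimrecPred.not ((prim_pr.comp Primrec.fst).and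
      (dvd' (Primrec.snd.comp Primrec.snd) Primrec.fst))) (PrimrecPred.or
      (Primrec.eq.comp Primrec.fst (Primrec.fst.comp Primrec.snd))
      (Primrec.eq.comp (Primrec.nat_mod.comp Primrec.fst (Primrec.const 3)) (Primrec.const 1)))

/-- the complete test -/
def test (N : ℕ) : Prop := cl N ∧ ns N ∧ N ≠ 2

theorem prim_test : PrimrecPred test := by
  unfold test
  exact prim_cl.and (prim_ns.and (Primrec.eq.comp Primrec.id (Primrec.const 2)).not)

theorem comp_test : ∃ g : ℕ → Bool, Computable g ∧ ∀ N, g N = true ↔ test N := by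
  obtain ⟨h, hg⟩ := prim_test.computablePred
  exact ⟨fun N => decide (test N), hg, fun N => by simp⟩

/-- the class -/
def Cl (N : ℕ) : Prop :=
  Squarefree N ∧ ¬ 3 ∣ N ∧ N % 9 ≠ 1 ∧ N % 9 ≠ 8 ∧
    ∃ q : ℕ, q.Prime ∧ q % 3 = 2 ∧ q ∣ N ∧ ∀ p : ℕ, p.Prime → p ∣ N → p ≠ q → p % 3 = 1

theorem cl_iff (N : ℕ) : cl N ↔ Cl N := by
  unfold cl Cl
  constructor
  · rintro ⟨h1, h2, h3, h4, h5, q, -, h6, h7, h8, h9⟩
    refine ⟨?_, fun h => h3 (Nat.mod_eq_zero_of_dvd h), h4, h5, q, (pr_iff q).1 h6, h7,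
      Nat.dvd_of_mod_eq_zero h8, fun p hp hpN hpq => ?_⟩
    · intro x hx
      rw [Nat.isUnit_iff]
      by_contra hx1
      have hx0 : x ≠ 0 := by
        rintro rfl
        rw [zero_mul] at hx
        have := Nat.eq_zero_of_zero_dvd hx
        omega
      have hxN : x ∣ N := (Dvd.intro x rfl).trans hx
      have hle := Nat.le_of_dvd (by omega) hxN
      exact h2 x (by omega) ⟨by omega, Nat.mod_eq_zero_of_dvd hx⟩
    · have hle := Nat.le_of_dvd (by omega) hpN
      rcases h9 p (by omega) with h | h | h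
      · exact absurd ⟨(pr_iff p).2 hp, Nat.mod_eq_zero_of_dvd hpN⟩ h
      · exact absurd h hpq
      · exact h
  · rintro ⟨h1, h3, h4, h5, q, h6, h7, h8, h9⟩
    have h0 : 1 ≤ N := Nat.one_le_iff_ne_zero.2 h1.ne_zero
    have hle : ∀ x, x ∣ N → x < N + 1 := fun x hx => by
      have := Nat.le_of_dvd (by omega) hx
      omega
    refine ⟨h0, fun x _ hx => ?_, fun h => h3 (Nat.dvd_of_mod_eq_zero h), h4, h5, q, hle q h8,
      (pr_iff q).2 h6, h7, Nat.mod_eq_zero_of_dvd h8, fun p _ => ?_⟩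
    · have := Nat.isUnit_iff.1 (h1 x (Nat.dvd_of_mod_eq_zero hx.2))
      omega
    · by_cases h : pr p ∧ N % p = 0
      · right
        by_cases hpq : p = q
        · exact Or.inl hpq
        · exact Or.inr (h9 p ((pr_iff p).1 h.1) (Nat.dvd_of_mod_eq_zero h.2) hpq)
      · exact Or.inl h

/-- no splitting -/
def Ns (N : ℕ) : Prop :=
  ∀ d : ZMod 3 → ℕ, ∏ c, d c = N → (∀ c c', c ≠ c' → Nat.Coprime (d c) (d c')) →
    (∀ (c : ZMod 3) (p : ℕ), p.Prime → p ∣ d c →
      ∃ x : ℤ, (p : ℤ) ∣ (d (c + 1) : ℤ) * (d (c + 2) : ℤ) ^ 2 - x ^ 3) →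
    ∃ c, ∀ c', c' ≠ c → d c' = 1

theorem cube_iff {a m : ℕ} (ha : a ≠ 0) : cube (a, m) ↔
    ∀ p : ℕ, p.Prime → p ∣ a → ∃ x : ℤ, (p : ℤ) ∣ (m : ℤ) - x ^ 3 := by
  unfold cube
  constructor
  · intro h p hp hpa
    have hle := Nat.le_of_dvd (Nat.pos_of_ne_zero ha) hpa
    rcases h p (by simp only; omega) with h | ⟨x, -, h⟩
    · exact absurd ⟨(pr_iff p).2 hp, Nat.mod_eq_zero_of_dvd hpa⟩ h
    · refine ⟨x, ?_⟩
      have h1 : (x * (x * x)) ≡ m [MOD p] := h.symm
      have h2 := (Nat.modEq_iff_dvd.1 h1)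
      have e : (m : ℤ) - (x : ℤ) ^ 3 = (m : ℤ) - ((x * (x * x) : ℕ) : ℤ) := by
        push_cast
        ring
      rw [e]
      exact h2
  · intro h p _
    by_cases hp : pr p ∧ a % p = 0
    · right
      obtain ⟨x, hx⟩ := h p ((pr_iff p).1 hp.1) (Nat.dvd_of_mod_eq_zero hp.2)
      have hp0 : (0 : ℤ) < p := by exact_mod_cast ((pr_iff p).1 hp.1).pos
      refine ⟨(x % p).toNat, ?_, ?_⟩
      · have h1 := Int.emod_lt_of_pos x hp0
        have h2 := Int.emod_nonneg x hp0.ne'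
        omega
      · have h2 := Int.emod_nonneg x hp0.ne'
        have h3 : (((x % p).toNat : ℕ) : ℤ) = x % p := Int.toNat_of_nonneg h2
        have h4 : (((x % p).toNat * ((x % p).toNat * (x % p).toNat) : ℕ) : ℤ) ≡ x ^ 3 [ZMOD p] := by
          push_cast
          rw [h3]
          have h5 : x % p ≡ x [ZMOD p] := Int.mod_modEq x p
          have h6 := (h5.mul (h5.mul h5))
          have e : x * (x * x) = x ^ 3 := by ring
          rw [e] at h6
          exact h6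
        have h7 : x ^ 3 ≡ (m : ℤ) [ZMOD p] := Int.modEq_iff_dvd.2 hx
        have h8 := Int.natCast_modEq_iff.1 (h4.trans h7)
        exact h8.symm
    · exact Or.inl hp

theorem z3 (c : ZMod 3) : c = 0 ∨ c = 1 ∨ c = 2 := by
  revert c
  decide

theorem ns_iff {N : ℕ} (hN : Squarefree N) : ns N ↔ Ns N := by
  have hN0 : N ≠ 0 := hN.ne_zero
  have hprod : ∀ d : ZMod 3 → ℕ, ∏ c, d c = d 0 * (d 1 * d 2) := by
    intro d
    have : (Finset.univ : Finset (ZMod 3)) = {0, 1, 2} := by decide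
    rw [this, Finset.prod_insert (by decide), Finset.prod_insert (by decide),
      Finset.prod_singleton]
  constructor
  · intro h d hd _ hcube
    rw [hprod] at hd
    have hne : d 0 ≠ 0 ∧ d 1 ≠ 0 ∧ d 2 ≠ 0 := by
      refine ⟨?_, ?_, ?_⟩ <;> (intro h0; rw [h0] at hd; simp at hd; exact hN0 hd.symm)
    have hle : ∀ x, x ∣ N → x < N + 1 := fun x hx => by
      have := Nat.le_of_dvd (Nat.pos_of_ne_zero hN0) hx
      omega
    have h0 : d 0 ∣ N := Dvd.intro _ hd
    have h1 : d 1 ∣ N := Dvd.intro (d 0 * d 2) (by rw [← hd]; ring)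
    have h2 : d 2 ∣ N := Dvd.intro (d 0 * d 1) (by rw [← hd]; ring)
    have e0 : ((0 : ZMod 3) + 1) = 1 ∧ ((0 : ZMod 3) + 2) = 2 ∧ ((1 : ZMod 3) + 1) = 2 ∧
        ((1 : ZMod 3) + 2) = 0 ∧ ((2 : ZMod 3) + 1) = 0 ∧ ((2 : ZMod 3) + 2) = 1 := by decide
    obtain ⟨e01, e02, e11, e12, e21, e22⟩ := e0
    have hc0 : cube (d 0, d 1 * (d 2 * d 2)) := by
      refine (cube_iff hne.1).2 fun p hp hpd => ?_
      obtain ⟨x, hx⟩ := hcube 0 p hp hpd
      rw [e01, e02] at hx
      refine ⟨x, ?_⟩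
      push_cast
      rw [← sq]
      exact hx
    have hc1 : cube (d 1, d 2 * (d 0 * d 0)) := by
      refine (cube_iff hne.2.1).2 fun p hp hpd => ?_
      obtain ⟨x, hx⟩ := hcube 1 p hp hpd
      rw [e11, e12] at hx
      refine ⟨x, ?_⟩
      push_cast
      rw [← sq]
      exact hx
    have hc2 : cube (d 2, d 0 * (d 1 * d 1)) := by
      refine (cube_iff hne.2.2).2 fun p hp hpd => ?_
      obtain ⟨x, hx⟩ := hcube 2 p hp hpd
      rw [e21, e22] at hx
      refine ⟨x, ?_⟩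
      push_cast
      rw [← sq]
      exact hx
    rcases h (d 0) (hle _ h0) (d 1) (hle _ h1) (d 2) (hle _ h2) with h | h | h | h | h | h | h
    · exact absurd hd h
    · exact absurd hc0 h
    · exact absurd hc1 h
    · exact absurd hc2 h
    · refine ⟨2, fun c hc => ?_⟩
      rcases z3 c with rfl | rfl | rfl
      · exact h.1
      · exact h.2
      · exact absurd rfl hc
    · refine ⟨0, fun c hc => ?_⟩
      rcases z3 c with rfl | rfl | rfl
      · exact absurd rfl hc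
      · exact h.1
      · exact h.2
    · refine ⟨1, fun c hc => ?_⟩
      rcases z3 c with rfl | rfl | rfl
      · exact h.2
      · exact absurd rfl hc
      · exact h.1
  · intro h a _ b _ c _
    unfold tr
    by_contra hcon
    push Not at hcon
    obtain ⟨h1, h2, h3, h4, h5, h6, h7⟩ := hcon
    have hne : a ≠ 0 ∧ b ≠ 0 ∧ c ≠ 0 := by
      refine ⟨?_, ?_, ?_⟩ <;> (rintro rfl; simp at h1; exact hN0 h1.symm)
    let d : ZMod 3 → ℕ := fun i => if i = 0 then a else if i = 1 then b else c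
    have d0 : d 0 = a := rfl
    have d1 : d 1 = b := rfl
    have d2 : d 2 = c := rfl
    have hd : ∏ i, d i = N := by
      rw [hprod, d0, d1, d2]
      exact h1
    have hcop : ∀ x y : ℕ, x * y ∣ N → Nat.Coprime x y := fun x y hxy =>
      Nat.coprime_of_squarefree_mul (hN.squarefree_of_dvd hxy)
    have hab : Nat.Coprime a b := hcop a b (Dvd.intro c (by rw [← h1]; ring))
    have hac : Nat.Coprime a c := hcop a c (Dvd.intro b (by rw [← h1]; ring))
    have hbc : Nat.Coprime b c := hcop b c (Dvd.intro a (by rw [← h1]; ring))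
    obtain ⟨i, hi⟩ := h d hd (by
      intro i j hij
      rcases z3 i with rfl | rfl | rfl <;> rcases z3 j with rfl | rfl | rfl
      · exact absurd rfl hij
      · exact hab
      · exact hac
      · exact hab.symm
      · exact absurd rfl hij
      · exact hbc
      · exact hac.symm
      · exact hbc.symm
      · exact absurd rfl hij) (by
      intro i p hp hpd
      rcases z3 i with rfl | rfl | rfl
      · obtain ⟨x, hx⟩ := (cube_iff hne.1).1 h2 p hp hpd
        refine ⟨x, ?_⟩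
        have e : ((d (0 + 1) : ℕ) : ℤ) * ((d (0 + 2) : ℕ) : ℤ) ^ 2 - x ^ 3 =
            ((b * (c * c) : ℕ) : ℤ) - x ^ 3 := by
          show ((b : ℕ) : ℤ) * ((c : ℕ) : ℤ) ^ 2 - x ^ 3 = _
          push_cast
          ring
        rw [e]
        exact hx
      · obtain ⟨x, hx⟩ := (cube_iff hne.2.1).1 h3 p hp hpd
        refine ⟨x, ?_⟩
        have e : ((d (1 + 1) : ℕ) : ℤ) * ((d (1 + 2) : ℕ) : ℤ) ^ 2 - x ^ 3 =
            ((c * (a * a) : ℕ) : ℤ) - x ^ 3 := by
          show ((c : ℕ) : ℤ) * ((a : ℕ) : ℤ) ^ 2 - x ^ 3 = _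
          push_cast
          ring
        rw [e]
        exact hx
      · obtain ⟨x, hx⟩ := (cube_iff hne.2.2).1 h4 p hp hpd
        refine ⟨x, ?_⟩
        have e : ((d (2 + 1) : ℕ) : ℤ) * ((d (2 + 2) : ℕ) : ℤ) ^ 2 - x ^ 3 =
            ((a * (b * b) : ℕ) : ℤ) - x ^ 3 := by
          show ((a : ℕ) : ℤ) * ((b : ℕ) : ℤ) ^ 2 - x ^ 3 = _
          push_cast
          ring
        rw [e]
        exact hx)
    rcases z3 i with rfl | rfl | rfl
    · exact h6 (hi 1 (by decide)) (hi 2 (by decide))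
    · exact h7 (hi 2 (by decide)) (hi 0 (by decide))
    · exact h5 (hi 0 (by decide)) (hi 1 (by decide))

theorem test_iff (N : ℕ) : test N ↔ Cl N ∧ Ns N ∧ N ≠ 2 := by
  unfold test
  rw [cl_iff]
  refine and_congr_right fun h => ?_
  rw [ns_iff h.1]

end Pool.Agent.V11291.AL
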