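import Pool.Agent.V11291.AL.Comp
import Pool.Agent.Y687.MQ.Fin

/-! A primitive recursive form of the criterion `det (matD D) ≠ 0`. -/

set_option autoImplicit false

namespace Pool.Agent.V11291.AL

open Primrec

open Pool.Agent.Y687.MQ (matD AdmD SP)

/-- the number of the `a < f` with `R a` -/
noncomputable def cn (f : ℕ) (R : ℕ → Prop) : ℕ :=
  haveI : DecidablePred R := Classical.decPred R
  ((List.range f).filter (fun a => decide (R a))).length

theorem prim_cn {β : Type} [Primcodable β] {R : ℕ → β → Prop} (hR : PrimrecRel R) {f : β → ℕ}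
    (hf : Primrec f) : Primrec fun y => cn (f y) (fun a => R a y) := by
  classical
  have h := Primrec.list_length.comp ((PrimrecRel.listFilter hR).comp (Primrec.list_range.comp hf)
    Primrec.id)
  refine h.of_eq fun y => ?_
  unfold cn
  refine congrArg List.length (List.filter_congr fun a _ => ?_)
  exact decide_eq_decide.2 Iff.rfl

theorem cn_eq (f : ℕ) (R : ℕ → Prop) [DecidablePred R] : cn f R = ((Finset.range f).filter R).card := by
  unfold cn
  rw [Finset.card_def, Finset.filter_val, Finset.range_val, Multiset.range, Multiset.filter_coe,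
    Multiset.coe_card]
  refine congrArg List.length (List.filter_congr fun a _ => ?_)
  exact decide_eq_decide.2 Iff.rfl

/-- `r` is not a square modulo `p` -/
def nr (y : ℕ × ℕ) : Prop := ∀ x < y.2, ¬ (x * x) % y.2 = y.1 % y.2

theorem prim_nr : PrimrecPred nr := by
  unfold nr
  refine all_lt (β := ℕ × ℕ) (R := fun x y => ¬ (x * x) % y.2 = y.1 % y.2) ?_ Primrec.snd
  refine PrimrecPred.not (Primrec.eq.comp (Primrec.nat_mod.comp
    (Primrec.nat_mul.comp Primrec.fst Primrec.fst) (Primrec.snd.comp Primrec.snd))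
    (Primrec.nat_mod.comp (Primrec.fst.comp Primrec.snd) (Primrec.snd.comp Primrec.snd)))

theorem nr_iff {r p : ℕ} (hp : p ≠ 0) : nr (r, p) ↔ ¬ IsSquare (r : ZMod p) := by
  have : NeZero p := ⟨hp⟩
  unfold nr
  constructor
  · rintro h ⟨z, hz⟩
    refine h z.val (ZMod.val_lt z) ?_
    have h1 : ((z.val * z.val : ℕ) : ZMod p) = (r : ZMod p) := by
      rw [Nat.cast_mul, ZMod.natCast_zmod_val, hz]
    exact (ZMod.natCast_eq_natCast_iff' _ _ _).1 h1
  · intro h x _ hx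
    refine h ⟨(x : ZMod p), ?_⟩
    rw [← Nat.cast_mul]
    exact ((ZMod.natCast_eq_natCast_iff' _ _ _).2 hx).symm

/-- the affine points modulo `p` -/
noncomputable def pt (p : ℕ) : ℕ := cn (p * p) fun z =>
  ((z % p) * (z % p) + 285714) % p = ((z / p) * ((z / p) * (z / p)) + 5805 * (z / p)) % p

theorem prim_pt : Primrec pt := by
  unfold pt
  refine prim_cn (R := fun z p => ((z % p) * (z % p) + 285714) % p =
    ((z / p) * ((z / p) * (z / p)) + 5805 * (z / p)) % p) ?_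
    (Primrec.nat_mul.comp Primrec.id Primrec.id)
  have h1 : Primrec fun y : ℕ × ℕ => y.1 % y.2 := Primrec.nat_mod.comp Primrec.fst Primrec.snd
  have h2 : Primrec fun y : ℕ × ℕ => y.1 / y.2 := Primrec.nat_div.comp Primrec.fst Primrec.snd
  exact Primrec.eq.comp (Primrec.nat_mod.comp (Primrec.nat_add.comp (Primrec.nat_mul.comp h1 h1)
    (Primrec.const 285714)) Primrec.snd) (Primrec.nat_mod.comp (Primrec.nat_add.comp
    (Primrec.nat_mul.comp h2 (Primrec.nat_mul.comp h2 h2))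
    (Primrec.nat_mul.comp (Primrec.const 5805) h2)) Primrec.snd)

theorem pt_eq {p : ℕ} (hp : p ≠ 0) : pt p = Pool.Agent.Y687.cnt 5805 (-285714) p := by
  classical
  have : NeZero p := ⟨hp⟩
  have hp' : 0 < p := Nat.pos_of_ne_zero hp
  unfold pt Pool.Agent.Y687.cnt
  rw [cn_eq, ← Fintype.card_coe, ← Nat.card_eq_fintype_card]
  refine Nat.card_congr ?_
  have key : ∀ x y : ℕ, ((y * y + 285714) % p = (x * (x * x) + 5805 * x) % p ↔
      (y : ZMod p) ^ 2 = (x : ZMod p) ^ 3 + ((5805 : ℤ) : ZMod p) * (x : ZMod p) +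
        ((-285714 : ℤ) : ZMod p)) := by
    intro x y
    rw [← ZMod.natCast_eq_natCast_iff']
    push_cast
    constructor <;> intro h <;> linear_combination h
  refine
    { toFun := fun z => ⟨(((z.1 / p : ℕ) : ZMod p), ((z.1 % p : ℕ) : ZMod p)), ?_⟩
      invFun := fun q => ⟨q.1.1.val * p + q.1.2.val, ?_⟩
      left_inv := ?_
      right_inv := ?_ }
  · have h := (Finset.mem_filter.1 z.2).2
    exact (key _ _).1 h
  · have h1 := ZMod.val_lt q.1.1
    have h2 := ZMod.val_lt q.1.2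
    rw [Finset.mem_filter, Finset.mem_range]
    have e1 : (q.1.1.val * p + q.1.2.val) / p = q.1.1.val := by
      rw [add_comm, Nat.add_mul_div_right _ _ hp', Nat.div_eq_of_lt h2, zero_add]
    have e2 : (q.1.1.val * p + q.1.2.val) % p = q.1.2.val := by
      rw [add_comm, Nat.add_mul_mod_self_right, Nat.mod_eq_of_lt h2]
    refine ⟨?_, ?_⟩
    · calc q.1.1.val * p + q.1.2.val < q.1.1.val * p + p := by omega
        _ = (q.1.1.val + 1) * p := by ring
        _ ≤ p * p := Nat.mul_le_mul h1 le_rfl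
    · rw [e1, e2]
      refine (key _ _).2 ?_
      rw [ZMod.natCast_zmod_val, ZMod.natCast_zmod_val]
      exact q.2
  · rintro ⟨z, hz⟩
    have hz1 := Finset.mem_range.1 (Finset.mem_filter.1 hz).1
    apply Subtype.ext
    simp only
    have h1 : z / p < p := Nat.div_lt_of_lt_mul hz1
    rw [ZMod.val_natCast, ZMod.val_natCast, Nat.mod_eq_of_lt h1, Nat.mod_eq_of_lt (Nat.mod_lt z hp')]
    exact Nat.div_add_mod' z p
  · rintro ⟨⟨a, b⟩, hq⟩
    have h1 := ZMod.val_lt a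
    have h2 := ZMod.val_lt b
    apply Subtype.ext
    simp only
    have e1 : (a.val * p + b.val) / p = a.val := by
      rw [add_comm, Nat.add_mul_div_right _ _ hp', Nat.div_eq_of_lt h2, zero_add]
    have e2 : (a.val * p + b.val) % p = b.val := by
      rw [add_comm, Nat.add_mul_mod_self_right, Nat.mod_eq_of_lt h2]
    rw [e1, e2, ZMod.natCast_zmod_val, ZMod.natCast_zmod_val]

/-- the diagonal -/
noncomputable def dg (y : ℕ × ℕ) : ℕ :=
  cn (y.1 + 1) (fun r => pr r ∧ y.1 % r = 0 ∧ ¬ r = y.2 ∧ nr (r, y.2)) +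
    cn 1 (fun _ => ¬ (pt y.2 + 1) % 8 = 0)

theorem prim_dg : Primrec dg := by
  unfold dg
  have hN : Primrec fun z : ℕ × (ℕ × ℕ) => z.2.1 := Primrec.fst.comp Primrec.snd
  have hp : Primrec fun z : ℕ × (ℕ × ℕ) => z.2.2 := Primrec.snd.comp Primrec.snd
  have hr : Primrec fun z : ℕ × (ℕ × ℕ) => z.1 := Primrec.fst
  refine Primrec.nat_add.comp ?_ ?_
  · refine prim_cn (β := ℕ × ℕ) (R := fun r y => pr r ∧ y.1 % r = 0 ∧ ¬ r = y.2 ∧ nr (r, y.2)) ?_
      (Primrec.nat_add.comp Primrec.fst (Primrec.const 1))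
    exact PrimrecPred.and (prim_pr.comp hr) (PrimrecPred.and (dvd' hN hr)
      (PrimrecPred.and (Primrec.eq.comp hr hp).not (prim_nr.comp (Primrec.pair hr hp))))
  · refine prim_cn (β := ℕ × ℕ) (R := fun _ y => ¬ (pt y.2 + 1) % 8 = 0) ?_ (Primrec.const 1)
    exact PrimrecPred.not (Primrec.eq.comp (Primrec.nat_mod.comp (Primrec.nat_add.comp
      (prim_pt.comp hp) (Primrec.const 1)) (Primrec.const 8)) (Primrec.const 0))

/-- the entry of the product; `y = (N, u, p)` -/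
noncomputable def row (y : ℕ × (ℕ × ℕ)) : ℕ :=
  cn (y.1 + 1) (fun r => pr r ∧ y.1 % r = 0 ∧ r % 8 = 1 ∧ ¬ r = y.2.2 ∧ y.2.1 % r = 0 ∧
    nr (r, y.2.2)) + dg (y.1, y.2.2) * cn 1 (fun _ => y.2.1 % y.2.2 = 0)

theorem prim_row : Primrec row := by
  unfold row
  have hr : Primrec fun z : ℕ × (ℕ × (ℕ × ℕ)) => z.1 := Primrec.fst
  have hN : Primrec fun z : ℕ × (ℕ × (ℕ × ℕ)) => z.2.1 := Primrec.fst.comp Primrec.snd
  have hu : Primrec fun z : ℕ × (ℕ × (ℕ × ℕ)) => z.2.2.1 :=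
    Primrec.fst.comp (Primrec.snd.comp Primrec.snd)
  have hp : Primrec fun z : ℕ × (ℕ × (ℕ × ℕ)) => z.2.2.2 :=
    Primrec.snd.comp (Primrec.snd.comp Primrec.snd)
  refine Primrec.nat_add.comp ?_ (Primrec.nat_mul.comp ?_ ?_)
  · refine prim_cn (β := ℕ × (ℕ × ℕ)) (R := fun r y => pr r ∧ y.1 % r = 0 ∧ r % 8 = 1 ∧
      ¬ r = y.2.2 ∧ y.2.1 % r = 0 ∧ nr (r, y.2.2)) ?_
      (Primrec.nat_add.comp Primrec.fst (Primrec.const 1))
    exact PrimrecPred.and (prim_pr.comp hr) (PrimrecPred.and (dvd' hN hr)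
      (PrimrecPred.and (Primrec.eq.comp (Primrec.nat_mod.comp hr (Primrec.const 8))
        (Primrec.const 1)) (PrimrecPred.and (Primrec.eq.comp hr hp).not
        (PrimrecPred.and (dvd' hu hr) (prim_nr.comp (Primrec.pair hr hp))))))
  · exact prim_dg.comp (Primrec.pair Primrec.fst (Primrec.snd.comp Primrec.snd))
  · refine prim_cn (β := ℕ × (ℕ × ℕ)) (R := fun _ y => y.2.1 % y.2.2 = 0) ?_ (Primrec.const 1)
    exact dvd' hu hp

/-- `p` is a prime factor of `N` which is `1` modulo `8` -/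
def sp (N p : ℕ) : Prop := pr p ∧ N % p = 0 ∧ p % 8 = 1

/-- the matrix is nonsingular -/
def kt (N : ℕ) : Prop := ∀ u < N + 1, (∀ p < N + 1, ¬ (sp N p ∧ u % p = 0)) ∨
  ∃ p < N + 1, sp N p ∧ ¬ row (N, (u, p)) % 2 = 0

theorem prim_kt : PrimrecPred kt := by
  unfold kt
  refine all_lt (β := ℕ) (R := fun u N => (∀ p < N + 1, ¬ (sp N p ∧ u % p = 0)) ∨
    ∃ p < N + 1, sp N p ∧ ¬ row (N, (u, p)) % 2 = 0) ?_
    (Primrec.nat_add.comp Primrec.id (Primrec.const 1))
  have hp : Primrec fun z : ℕ × (ℕ × ℕ) => z.1 := Primrec.fst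
  have hu : Primrec fun z : ℕ × (ℕ × ℕ) => z.2.1 := Primrec.fst.comp Primrec.snd
  have hN : Primrec fun z : ℕ × (ℕ × ℕ) => z.2.2 := Primrec.snd.comp Primrec.snd
  have hsp : PrimrecPred fun z : ℕ × (ℕ × ℕ) => sp z.2.2 z.1 := by
    unfold sp
    exact PrimrecPred.and (prim_pr.comp hp) (PrimrecPred.and (dvd' hN hp)
      (Primrec.eq.comp (Primrec.nat_mod.comp hp (Primrec.const 8)) (Primrec.const 1)))
  refine PrimrecPred.or ?_ ?_
  · refine all_lt (β := ℕ × ℕ) (R := fun p y => ¬ (sp y.2 p ∧ y.1 % p = 0)) ?_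
      (Primrec.nat_add.comp Primrec.snd (Primrec.const 1))
    exact PrimrecPred.not (PrimrecPred.and hsp (dvd' hu hp))
  · refine ex_lt (β := ℕ × ℕ) (R := fun p y => sp y.2 p ∧ ¬ row (y.2, (y.1, p)) % 2 = 0) ?_
      (Primrec.nat_add.comp Primrec.snd (Primrec.const 1))
    exact PrimrecPred.and hsp (PrimrecPred.not (Primrec.eq.comp (Primrec.nat_mod.comp
      (prim_row.comp (Primrec.pair hN (Primrec.pair hu hp))) (Primrec.const 2)) (Primrec.const 0)))

/-- the test for the class -/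
def ad (N : ℕ) : Prop :=
  1 ≤ N ∧ (∀ x < N + 1, ¬ (2 ≤ x ∧ N % (x * x) = 0)) ∧
  ((N % 4 = 1 ∧ (N % 7 = 1 ∨ N % 7 = 2 ∨ N % 7 = 4)) ∨
    (N % 4 = 3 ∧ (N % 7 = 3 ∨ N % 7 = 5 ∨ N % 7 = 6))) ∧
  ∀ p < N + 1, ¬ (pr p ∧ N % p = 0) ∨ (¬ p = 3 ∧
    ((p % 8 = 1 ∧ (p % 7 = 1 ∨ p % 7 = 2 ∨ p % 7 = 4)) ∨
      ((p % 8 = 3 ∨ p % 8 = 5) ∧ (p % 7 = 3 ∨ p % 7 = 5 ∨ p % 7 = 6))))

theorem prim_ad : PrimrecPred ad := by
  unfold ad
  have h : ∀ {β : Type} [Primcodable β] {f : β → ℕ} (_ : Primrec f) (k r : ℕ),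
      PrimrecPred fun y => f y % k = r := fun hf k r =>
    Primrec.eq.comp (Primrec.nat_mod.comp hf (Primrec.const k)) (Primrec.const r)
  have h1 : Primrec fun N : ℕ => N + 1 := Primrec.nat_add.comp Primrec.id (Primrec.const 1)
  have hid : Primrec fun N : ℕ => N := Primrec.id
  have h3 : ∀ {β : Type} [Primcodable β] {f : β → ℕ} (_ : Primrec f) (a b c : ℕ),
      PrimrecPred fun y => f y % 7 = a ∨ f y % 7 = b ∨ f y % 7 = c := fun hf a b c =>
    (h hf 7 a).or ((h hf 7 b).or (h hf 7 c))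
  refine (Primrec.nat_le.comp (Primrec.const 1) hid).and (PrimrecPred.and ?_ (PrimrecPred.and ?_ ?_))
  · refine all_lt (R := fun x N => ¬ (2 ≤ x ∧ N % (x * x) = 0)) ?_ h1
    exact PrimrecPred.not ((Primrec.nat_le.comp (Primrec.const 2) Primrec.fst).and
      (dvd' Primrec.snd (Primrec.nat_mul.comp Primrec.fst Primrec.fst)))
  · exact ((h hid 4 1).and (h3 hid 1 2 4)).or ((h hid 4 3).and (h3 hid 3 5 6))
  · refine all_lt (R := fun p N => ¬ (pr p ∧ N % p = 0) ∨ (¬ p = 3 ∧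
      ((p % 8 = 1 ∧ (p % 7 = 1 ∨ p % 7 = 2 ∨ p % 7 = 4)) ∨
        ((p % 8 = 3 ∨ p % 8 = 5) ∧ (p % 7 = 3 ∨ p % 7 = 5 ∨ p % 7 = 6))))) ?_ h1
    have hp : Primrec fun z : ℕ × ℕ => z.1 := Primrec.fst
    exact PrimrecPred.or (PrimrecPred.not ((prim_pr.comp hp).and (dvd' Primrec.snd hp)))
      (PrimrecPred.and (Primrec.eq.comp hp (Primrec.const 3)).not
        (((h hp 8 1).and (h3 hp 1 2 4)).or (((h hp 8 3).or (h hp 8 5)).and (h3 hp 3 5 6))))

/-- the discriminant -/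
def DD (N : ℕ) : ℤ := (N : ℤ) * (2 - ((N % 4 : ℕ) : ℤ))

theorem ad_iff (N : ℕ) : ad N ↔ AdmD (DD N) ∧ (DD N).natAbs = N := by
  unfold ad AdmD DD
  constructor
  · rintro ⟨h1, h2, h3, h4⟩
    have hsq : Squarefree N := by
      intro x hx
      rw [Nat.isUnit_iff]
      by_contra hx1
      have hx0 : x ≠ 0 := by
        rintro rfl
        rw [zero_mul] at hx
        have := Nat.eq_zero_of_zero_dvd hx
        omega
      have hxN : x ∣ N := (Dvd.intro x rfl).trans hx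
      have hle := Nat.le_of_dvd (by omega) hxN
      exact h2 x (by omega) ⟨by omega, Nat.mod_eq_zero_of_dvd hx⟩
    have hD : (N : ℤ) * (2 - ((N % 4 : ℕ) : ℤ)) = N ∧ N % 4 = 1 ∨
        (N : ℤ) * (2 - ((N % 4 : ℕ) : ℤ)) = -N ∧ N % 4 = 3 := by
      rcases h3 with h3 | h3
      · left
        rw [h3.1]
        refine ⟨by norm_num, rfl⟩
      · right
        rw [h3.1]
        refine ⟨by norm_num, rfl⟩
    have habs : ((N : ℤ) * (2 - ((N % 4 : ℕ) : ℤ))).natAbs = N := by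
      rcases hD with h | h <;> rw [h.1] <;> simp
    refine ⟨⟨?_, ?_, ?_, fun p hp hpD => ?_⟩, habs⟩
    · rw [← Int.squarefree_natAbs, habs]
      exact hsq
    · rcases hD with h | h <;> rw [h.1] <;> omega
    · rcases hD with h | h <;> rw [h.1] <;> omega
    · have hpN : p ∣ N := by
        rw [← habs]
        exact Int.natCast_dvd.1 hpD
      have hle := Nat.le_of_dvd (by omega) hpN
      rcases h4 p (by omega) with h | ⟨h5, h6⟩
      · exact absurd ⟨(pr_iff p).2 hp, Nat.mod_eq_zero_of_dvd hpN⟩ h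
      · refine ⟨h5, ?_⟩
        rcases h6 with h6 | h6
        · exact Or.inl ⟨hp, h6.1, h6.2⟩
        · exact Or.inr ⟨hp, h6.1, h6.2⟩
  · rintro ⟨⟨h1, h2, h3, h4⟩, habs⟩
    have hsq : Squarefree N := by
      rw [← habs]
      exact Int.squarefree_natAbs.2 h1
    have h0 : N ≠ 0 := hsq.ne_zero
    have hD : (N : ℤ) * (2 - ((N % 4 : ℕ) : ℤ)) = N ∨
        (N : ℤ) * (2 - ((N % 4 : ℕ) : ℤ)) = -N := by
      have := Int.natAbs_eq ((N : ℤ) * (2 - ((N % 4 : ℕ) : ℤ)))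
      rw [habs] at this
      exact this
    refine ⟨by omega, fun x _ hx => ?_, ?_, fun p _ => ?_⟩
    · have := Nat.isUnit_iff.1 (hsq x (Nat.dvd_of_mod_eq_zero hx.2))
      omega
    · rcases hD with h | h <;> rw [h] at h2 h3 <;> omega
    · by_cases h : pr p ∧ N % p = 0
      · right
        have hpD : (p : ℤ) ∣ (N : ℤ) * (2 - ((N % 4 : ℕ) : ℤ)) :=
          Dvd.dvd.mul_right (Int.natCast_dvd_natCast.2 (Nat.dvd_of_mod_eq_zero h.2)) _
        obtain ⟨h5, h6⟩ := h4 p ((pr_iff p).1 h.1) hpD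
        refine ⟨h5, ?_⟩
        rcases h6 with h6 | h6
        · exact Or.inl ⟨h6.2.1, h6.2.2⟩
        · exact Or.inr ⟨h6.2.1, h6.2.2⟩
      · exact Or.inl h

theorem DD_natAbs {D : ℤ} (h : AdmD D) : DD D.natAbs = D := by
  unfold DD
  have h1 := h.2.1
  rcases Int.natAbs_eq D with h2 | h2
  · have h3 : D.natAbs % 4 = 1 := by omega
    rw [h3]
    omega
  · have h3 : D.natAbs % 4 = 3 := by omega
    rw [h3]
    omega

end Pool.Agent.V11291.AL
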