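import Pool.Agent.V11291.AL.Comp2

/-! The criterion `det (matD D) ≠ 0` is decided by the primitive recursive test. -/

set_option autoImplicit false

namespace Pool.Agent.V11291.AL

open Pool.Agent.Y687.MQ (matD AdmD SP)

open Pool.Agent.Y687 (NN)

open Finset (univ mem_filter mem_range)

theorem nn_eq {p : ℕ} (hp : p ≠ 0) : NN 1 p = pt p + 1 := by
  unfold NN
  rw [pt_eq hp]
  norm_num

theorem mem_SP {D : ℤ} (hD : D ≠ 0) (p : ℕ) : p ∈ SP D ↔ sp D.natAbs p := by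
  unfold SP sp
  rw [mem_filter, Nat.mem_primeFactors, pr_iff, ← Nat.dvd_iff_mod_eq_zero]
  have : D.natAbs ≠ 0 := Int.natAbs_ne_zero.2 hD
  tauto

theorem sp_lt {N p : ℕ} (hN : N ≠ 0) (h : sp N p) : p < N + 1 := by
  have := Nat.le_of_dvd (Nat.pos_of_ne_zero hN) (Nat.dvd_of_mod_eq_zero h.2.1)
  omega

/-- the vector of `u` -/
def vu (D : ℤ) (u : ℕ) : SP D → ZMod 2 := fun p => if u % p = 0 then 1 else 0

theorem cn_one (P : Prop) [Decidable P] : ((cn 1 (fun _ => P) : ℕ) : ZMod 2) = if P then 1 else 0 := by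
  classical
  rw [cn_eq]
  by_cases h : P <;> simp [h]

theorem diag {D : ℤ} (hD : D ≠ 0) (p : SP D) :
    matD D p p = ((dg (D.natAbs, (p : ℕ)) : ℕ) : ZMod 2) := by
  classical
  have hp := (mem_SP hD p.1).1 p.2
  have hp0 : (p : ℕ) ≠ 0 := ((pr_iff _).1 hp.1).ne_zero
  have hN : D.natAbs ≠ 0 := Int.natAbs_ne_zero.2 hD
  unfold matD dg
  simp only [Matrix.of_apply, if_true]
  rw [Nat.cast_add, cn_one, nn_eq hp0]
  congr 1
  · rw [cn_eq]
    refine congrArg Nat.cast (congrArg Finset.card ?_)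
    ext r
    rw [mem_filter, mem_filter, Nat.mem_primeFactors, mem_range, pr_iff, nr_iff hp0,
      ← Nat.dvd_iff_mod_eq_zero]
    constructor
    · rintro ⟨⟨h1, h2, -⟩, h3, h4⟩
      have := Nat.le_of_dvd (Nat.pos_of_ne_zero hN) h2
      exact ⟨by omega, h1, h2, h3, h4⟩
    · rintro ⟨-, h1, h2, h3, h4⟩
      exact ⟨⟨h1, h2, hN⟩, h3, h4⟩
  · by_cases h : 8 ∣ pt p + 1
    · rw [if_pos h, if_neg (not_not.2 (Nat.mod_eq_zero_of_dvd h))]
    · rw [if_neg h, if_pos fun h' => h (Nat.dvd_of_mod_eq_zero h')]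

theorem off {D : ℤ} (hD : D ≠ 0) (u : ℕ) (p : SP D) :
    ∑ j ∈ univ.erase p, matD D p j * vu D u j =
      ((cn (D.natAbs + 1) (fun r => pr r ∧ D.natAbs % r = 0 ∧ r % 8 = 1 ∧ ¬ r = (p : ℕ) ∧
        u % r = 0 ∧ nr (r, (p : ℕ))) : ℕ) : ZMod 2) := by
  classical
  have hp := (mem_SP hD p.1).1 p.2
  have hp0 : (p : ℕ) ≠ 0 := ((pr_iff _).1 hp.1).ne_zero
  have hN : D.natAbs ≠ 0 := Int.natAbs_ne_zero.2 hD
  have h1 : ∑ j ∈ univ.erase p, matD D p j * vu D u j =
      ∑ j ∈ univ.erase p, if (¬ IsSquare (((j : ℕ)) : ZMod (p : ℕ)) ∧ u % (j : ℕ) = 0) then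
        (1 : ZMod 2) else 0 := by
    refine Finset.sum_congr rfl fun j hj => ?_
    have hne : ¬ p = j := fun h => (Finset.mem_erase.1 hj).1 h.symm
    unfold matD vu
    simp only [Matrix.of_apply, if_neg hne]
    by_cases h2 : IsSquare (((j : ℕ)) : ZMod (p : ℕ)) <;> by_cases h3 : u % (j : ℕ) = 0 <;>
      simp [h2, h3]
  rw [h1, Finset.sum_boole, cn_eq]
  refine congrArg Nat.cast ?_
  refine Finset.card_bij (fun j _ => (j : ℕ)) ?_ ?_ ?_
  · intro j hj
    rw [mem_filter, Finset.mem_erase] at hj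
    have hj' := (mem_SP hD j.1).1 j.2
    rw [mem_filter, mem_range, nr_iff hp0]
    exact ⟨sp_lt hN hj', hj'.1, hj'.2.1, hj'.2.2, fun h => hj.1.1 (Subtype.ext h), hj.2.2, hj.2.1⟩
  · intro a _ b _ h
    exact Subtype.ext h
  · intro r hr
    rw [mem_filter, mem_range, nr_iff hp0] at hr
    obtain ⟨-, h2, h3, h4, h5, h6, h7⟩ := hr
    refine ⟨⟨r, (mem_SP hD r).2 ⟨h2, h3, h4⟩⟩, ?_, rfl⟩
    rw [mem_filter, Finset.mem_erase]
    exact ⟨⟨fun h => h5 (congrArg Subtype.val h), Finset.mem_univ _⟩, h7, h6⟩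

theorem mulVec_vu {D : ℤ} (hD : D ≠ 0) (u : ℕ) (p : SP D) :
    ((matD D).mulVec (vu D u)) p = ((row (D.natAbs, (u, (p : ℕ))) : ℕ) : ZMod 2) := by
  classical
  have e1 : ((matD D).mulVec (vu D u)) p = ∑ j : SP D, matD D p j * vu D u j := rfl
  rw [e1, ← Finset.add_sum_erase Finset.univ _ (Finset.mem_univ p), diag hD, off hD]
  unfold row
  rw [Nat.cast_add, Nat.cast_mul, cn_one]
  unfold vu
  rw [add_comm]

theorem two_cast (n : ℕ) : ((n : ℕ) : ZMod 2) = 0 ↔ n % 2 = 0 := by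
  rw [ZMod.natCast_eq_zero_iff, Nat.dvd_iff_mod_eq_zero]

theorem kt_iff {D : ℤ} (hD : AdmD D) : kt D.natAbs ↔ (matD D).det ≠ 0 := by
  classical
  have hD0 : D ≠ 0 := hD.1.ne_zero
  have hN : D.natAbs ≠ 0 := Int.natAbs_ne_zero.2 hD0
  have hprime : ∀ j : SP D, (j : ℕ).Prime := fun j => (pr_iff _).1 ((mem_SP hD0 j.1).1 j.2).1
  constructor
  · intro h hdet
    obtain ⟨v, hv0, hv⟩ := Matrix.exists_mulVec_eq_zero_iff.2 hdet
    obtain ⟨u, hu⟩ : ∃ u : ℕ, u = ∏ j ∈ univ.filter (fun j : SP D => v j ≠ 0), (j : ℕ) := ⟨_, rfl⟩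
    have key : ∀ j : SP D, (j : ℕ) ∣ u ↔ v j ≠ 0 := by
      intro j
      rw [hu]
      constructor
      · intro hj
        obtain ⟨i, hi, hji⟩ := ((hprime j).prime.dvd_finsetProd_iff _).1 hj
        have : (j : ℕ) = i := ((hprime i).eq_one_or_self_of_dvd _ hji).resolve_left
          (hprime j).one_lt.ne'
        have h2 : j = i := Subtype.ext this
        rw [h2]
        exact (mem_filter.1 hi).2
      · intro hj
        exact Finset.dvd_prod_of_mem (fun j : SP D => (j : ℕ)) (mem_filter.2 ⟨Finset.mem_univ _, hj⟩)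
    have hv' : v = vu D u := by
      funext j
      unfold vu
      have h2 : ∀ z : ZMod 2, z ≠ 0 → z = 1 := by decide
      by_cases hj : v j = 0
      · rw [hj, if_neg]
        intro h3
        exact (key j).1 (Nat.dvd_of_mod_eq_zero h3) hj
      · rw [if_pos (Nat.mod_eq_zero_of_dvd ((key j).2 hj))]
        exact h2 _ hj
    have hdvd : u ∣ D.natAbs := by
      have h3 : u ∣ ∏ j : SP D, (j : ℕ) := by
        rw [hu]
        exact Finset.prod_dvd_prod_of_subset _ _ _ (Finset.filter_subset _ _)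
      have h4 : ∏ j : SP D, (j : ℕ) = ∏ j ∈ SP D, j := Finset.prod_coe_sort (SP D) fun j => j
      rw [h4] at h3
      refine h3.trans ?_
      have h5 : ∏ j ∈ SP D, j ∣ ∏ j ∈ D.natAbs.primeFactors, j :=
        Finset.prod_dvd_prod_of_subset _ _ _ (Finset.filter_subset _ _)
      rwa [Nat.prod_primeFactors_of_squarefree (Int.squarefree_natAbs.2 hD.1)] at h5
    have hlt : u < D.natAbs + 1 := by
      have := Nat.le_of_dvd (Nat.pos_of_ne_zero hN) hdvd
      omega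
    rcases h u hlt with h1 | ⟨p, hp, hsp, hrow⟩
    · apply hv0
      funext j
      by_contra hj
      have hj' := (mem_SP hD0 j.1).1 j.2
      exact h1 j (sp_lt hN hj') ⟨hj', Nat.mod_eq_zero_of_dvd ((key j).2 hj)⟩
    · have h2 := congrFun hv ⟨p, (mem_SP hD0 p).2 hsp⟩
      rw [hv', mulVec_vu hD0, Pi.zero_apply, two_cast] at h2
      exact hrow h2
  · intro hdet u _
    by_contra hcon
    rw [not_or] at hcon
    obtain ⟨h1, h2⟩ := hcon
    rw [not_forall] at h1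
    obtain ⟨p, h1⟩ := h1
    rw [Classical.not_imp, not_not] at h1
    obtain ⟨-, hsp, hup⟩ := h1
    apply hdet
    rw [← Matrix.exists_mulVec_eq_zero_iff]
    refine ⟨vu D u, ?_, ?_⟩
    · intro h0
      have h3 := congrFun h0 ⟨p, (mem_SP hD0 p).2 hsp⟩
      unfold vu at h3
      rw [if_pos hup] at h3
      exact one_ne_zero h3
    · funext j
      rw [mulVec_vu hD0, Pi.zero_apply, two_cast]
      by_contra h3
      have hj := (mem_SP hD0 j.1).1 j.2
      exact h2 ⟨j, sp_lt hN hj, hj, h3⟩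

/-- the complete test -/
def test2 (N : ℕ) : Prop := ad N ∧ kt N

theorem prim_test2 : PrimrecPred test2 := by
  unfold test2
  exact prim_ad.and prim_kt

theorem test2_of {D : ℤ} (hD : AdmD D) : test2 D.natAbs ↔ (matD D).det ≠ 0 := by
  unfold test2
  rw [kt_iff hD]
  refine and_iff_right ?_
  rw [ad_iff, DD_natAbs hD]
  exact ⟨hD, rfl⟩

theorem test2_iff (N : ℕ) : test2 N ↔ AdmD (DD N) ∧ (DD N).natAbs = N ∧ (matD (DD N)).det ≠ 0 := by
  unfold test2
  rw [ad_iff]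
  constructor
  · rintro ⟨⟨h1, h2⟩, h3⟩
    refine ⟨h1, h2, (kt_iff h1).1 ?_⟩
    rw [h2]
    exact h3
  · rintro ⟨h1, h2, h3⟩
    refine ⟨⟨h1, h2⟩, ?_⟩
    have h4 := (kt_iff h1).2 h3
    rw [h2] at h4
    exact h4

end Pool.Agent.V11291.AL
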